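import Pool.Agent.Q58.LG.Fin
import Pool.Agent.Q58.LG.Gen

/-!
MP_26d9ad_nt, Q1: the conjecture of Lang and Vojta for quasi-projective varieties which are images
of varieties over generic pairs, also for their integral points of bounded degree.

Let `k` be a subfield of the complex numbers, with algebraic closure `k'` in `ℂ`. Let `V` be a closed
subset of `ℙⁿ`, defined over `k'`, of dimension at most `m`, and let `F_a` be finitely many forms
over `ℂ` of degrees `d_a`, whose coefficients are all together algebraically independent over `k`
(this holds for very general forms, if `k` is countable). Let `C` be a set of indices. Let `X₀` be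
the intersection of `V` with the hypersurfaces `F_c = 0`, `c ∈ C`, and `D₀` the union of the
hypersurfaces `F_b = 0`, `b ∉ C`.

Let `W = {Ψ = 0}` and `Z = {Φ = 0}` be projective varieties over `ℂ`, with a morphism `B : W → X₀`
and a surjective morphism `G : W → Z` with fibres of at most `r` points. (The morphisms are given by
forms of the same positive degree without common zeros on `W`, so they are finite. For example `W`
can be a closed subvariety of `X₀` or of a finite cover of `X₀`, and `Z` its image in a projective
space under a finite morphism; the branch locus and the singularities are arbitrary.) Let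
`Y = Z ∖ {H = 0}`, for a form `H` of positive degree `h` on the space of `Z`, such that the inverse
image of `Y` in `W` is mapped to the complement of `D₀`. So `Y` is the quotient of a variety over the
pair `(X₀, D₀)` by a finite equivalence relation; in general `Y` has no morphism to `X₀`. For
example, `Y` can be the complement in `ℙⁿ` of the image of a generic hypersurface under a finite
morphism from `ℙⁿ` to itself.

If `δ ≥ 1` and `2 m + 2 r δ ≤ ∑ d_a + |C|` then:

* all closed subvarieties of `Y` of positive dimension are of log general type, that is, the
  hypothesis of the conjecture holds for `Y`;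
* the conclusion of the conjecture holds for `Y`, even for points of degree at most `δ`: for each
  subring `R` of a finitely generated algebra over `k'`, for example for each finitely generated
  ring, there are only finitely many points of `Y` of degree at most `δ` over `R`: points with
  coordinates in some extension `L` of degree at most `δ` of the field of fractions of `R`, that are
  integral over `R`. The extension `L` is not fixed.

In the first part, `L` is the function field of the subvariety, `w` is its dimension and `z` is its
generic point, in homogeneous coordinates. A prime divisor `P` over the closure of the subvariety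
has its centre in `H = 0` if and only if `h min_i ord_P (z_i) < ord_P (H (z))`.

The proof of the first part: on a subvariety of `X₀ ∖ D₀` there is a rational canonical form whose
products with the forms of degree `2 r - 1` are logarithmic, and regular away from `D₀`; the traces
of these products to a variety with a correspondence of degree at most `r` are again logarithmic,
and regular away from `H = 0`, and separate its tangent directions, by the Cayley-Bacharach theorem
for double points. The proof of the second part: the points over the integral points of `Y` of
degree at most `δ` are defined over extensions of degree at most `r δ`, and `B` maps them to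
integral points of `X₀ ∖ D₀`, because `H` is nilpotent modulo the equations of the inverse image of
`D₀`, and because `W` is integral over `Z`.

The definitions are in `Pool/Agent/Y221/FQ/Defs.lean` (`Mor`, `Onto`, `FibresLe`, `im`),
`Pool/Agent/W602/GT/SpDefs.lean` (`Cone`, `SubVar`), `Pool/Agent/W602/GT/Defs.lean`
(`LogGeneralType`), `Pool/Agent/W603/PV/Hgt.lean` (`pord`), `Pool/Agent/TH145/MG/Dim.lean` (`DimLE`)
and `Pool/Agent/Q58/FI/Eqs.lean` (`eqs V F`, the equations of `V` together with the forms `F_c`).
-/

set_option autoImplicit false

namespace Pool.Agent.Results.MP_26d9ad_nt.ImagesOfPairs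

open MvPolynomial FF LinearAlgebra.Projectivization
open Pool.Agent.TH145.MG (DimLE)
open Pool.Agent.W602.GT (IsForm Cone SubVar LogGeneralType val)
open Pool.Agent.W603.PV (pord)
open Pool.Agent.Y221.FQ (Mor Onto FibresLe im)
open Pool.Agent.Q58.FI (eqs)

/-- The points of degree at most `δ` over the ring `R` of the complement of `H = 0` in the
projective variety `{Φ = 0}`: the coordinates are in an extension `L` of degree at most `δ` of the
field of fractions of `R`, and the values at the point of the quotients of monomials of degree `h`
by `H` are integral over `R`. -/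
def IntegralPoints {M : ℕ} {μ : Type} (Φ : μ → MvPolynomial (Fin (M + 1)) ℂ)
    (H : MvPolynomial (Fin (M + 1)) ℂ) (h δ : ℕ) (R : Subring ℂ) : Set (ℙ ℂ (Fin (M + 1) → ℂ)) :=
  {p | ∃ (q : Fin (M + 1) → ℂ) (hq : q ≠ 0), p = Projectivization.mk ℂ q hq ∧
    (∃ L : IntermediateField (Subfield.closure (R : Set ℂ)) ℂ,
      FiniteDimensional (Subfield.closure (R : Set ℂ)) L ∧
      Module.finrank (Subfield.closure (R : Set ℂ)) L ≤ δ ∧ ∀ j, q j ∈ L) ∧
    (∀ e, val q (Φ e) = 0) ∧ val q H ≠ 0 ∧
    ∀ I : Fin (M + 1) →₀ ℕ, I.degree = h → IsIntegral R ((∏ i, q i ^ I i) / val q H)}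

theorem result {k : Type} [Field k] [Algebra k ℂ] {n m r δ l M h : ℕ} (hδ : 1 ≤ δ)
    -- a closed subset of projective space, of dimension at most `m`
    (V : Set (MvPolynomial (Fin (n + 1)) (algebraicClosure k ℂ)))
    (hVh : ∀ f ∈ V, ∃ e, f.IsHomogeneous e) (hV : DimLE (algebraicClosure k ℂ) V m)
    -- forms of degrees `d a`, whose coefficients are algebraically independent over `k`; the forms
    -- with indices in `C` are equations, the others give the boundary
    {A : Type} [Fintype A] (d : A → ℕ) (C : Finset A)
    (hd : 2 * m + 2 * (r * δ) ≤ ∑ a, d a + C.card)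
    (F : A → MvPolynomial (Fin (n + 1)) ℂ) (hF : ∀ a, (F a).IsHomogeneous (d a))
    (hgen : AlgebraicIndependent k
      fun p : (a : A) × {I : Fin (n + 1) →₀ ℕ // I.degree = d a} => (F p.1).coeff p.2.1)
    -- projective varieties `W = {Ψ = 0}` and `Z = {Φ = 0}`
    {κ μ : Type} (Ψ : κ → MvPolynomial (Fin (l + 1)) ℂ) (hΨ : ∀ e, IsForm (Ψ e))
    (Φ : μ → MvPolynomial (Fin (M + 1)) ℂ)
    -- a morphism from `W` to the intersection
    (B : Fin (n + 1) → MvPolynomial (Fin (l + 1)) ℂ)
    (hB : Mor Ψ (eqs V fun c : {a // a ∈ C} => F c.1) B)
    -- a surjective morphism from `W` to `Z`, with fibres of at most `r` points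
    (G : Fin (M + 1) → MvPolynomial (Fin (l + 1)) ℂ) (hG : Mor Ψ Φ G)
    (hon : Onto Ψ Φ G) (hfib : FibresLe Ψ G r)
    -- the boundary of `Z`
    (H : MvPolynomial (Fin (M + 1)) ℂ) (hH : H.IsHomogeneous h) (hh : 1 ≤ h)
    (hbd : ∀ x ∈ Cone Ψ, val (im G x) H ≠ 0 → ∀ b, b ∉ C → val (im B x) (F b) ≠ 0) :
    -- the closed subvarieties of positive dimension are of log general type
    (∀ (L : Type) [Field L] [Algebra ℂ L] (w : ℕ) (z : Fin (M + 1) → L), 1 ≤ w →
      SubVar Φ L w z → val z H ≠ 0 →
      LogGeneralType ℂ L w fun P : Place ℂ L => h * pord P z < P.ord (val z H)) ∧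
    -- finiteness of the integral points of degree at most `δ`
    ∀ (T : Finset ℂ) (R : Subring ℂ),
      R ≤ Subring.closure ((algebraicClosure k ℂ : Set ℂ) ∪ (T : Set ℂ)) →
      (IntegralPoints Φ H h δ R).Finite := by
  refine ⟨fun L _ _ w z hw hz hzH => ?_, fun T R hR => ?_⟩
  · refine Pool.Agent.Q58.LG.log_general_im C hVh hV ?_ hF hgen hΨ hB hG hon hfib hH hh hbd L w z
      hw hz hzH
    have h1 : r * 1 ≤ r * δ := Nat.mul_le_mul_left r hδ
    omega
  · exact Pool.Agent.Q58.LG.finite_ipts C hVh hV hd hF hgen hΨ hB hG hon hfib hH hh hbd T R hR

end Pool.Agent.Results.MP_26d9ad_nt.ImagesOfPairs
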