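import Mathlib
import Pool.Agent.Q13.DS.Cons

/-!
# Integral points given by linear recurrences over difference fields

Let `U` be the quasi-projective variety `{G = 0, G ∈ FF} ∖ {Q = 0}` in projective `N`-space over a
field `F ⊂ ℂ` (for instance the function field of an arithmetic scheme), and let `x m` be a sequence
of points of `U` over `F`.

Coefficients: `B` is a field of sequences (modulo sequences which are eventually zero) which is
closed under the shift and has transcendence degree at most `d` over the constants
(`CoefField B`, `TrLe B d`), for instance the constants (`d = 0`), the rational functions in `m`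
(`d = 1`), or the rational functions in `m` and `q₁ ^ m, …, q_s ^ m` (`d = s + 1`).

The homogeneous coordinates of `x m` satisfy linear recurrences with coefficients in `B`, and the
numbers `Q (x m)` satisfy a recurrence of order one (`Hyper`); the latter condition is empty for
affine `U` with affine coordinates (`Q = X 0` and `x m 0 = 1`) and for projective `U` (`Q = 1`).

(1) If the log Kodaira dimension of `U` is greater than `d`, for example if `U` is of log general
type and of dimension greater than `d`, then the points `x m` are not Zariski dense in `U`: they lie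
on a hypersurface over `F` which does not contain `U`.

(2) If all subvarieties of `U` of dimension greater than `d` are of log general type, then the
Zariski closure of the points `x m` has dimension at most `d`: any `d + 2` of the homogeneous
coordinates satisfy a nontrivial homogeneous relation over `F` on all points `x m`.
-/

set_option autoImplicit false

namespace Pool.Agent.Results.MP_26d9ad_nt.RecurrenceSections

open MvPolynomial Filter FF Pool.Agent.TH143.GT Pool.Agent.W602.GT Pool.Agent.W603.GR
  Pool.Agent.TH143.DE Pool.Agent.Q13.DS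

/-- The ideal over `ℂ` generated by the forms in `FF`. -/
noncomputable def idealC {F : Type} [Field F] [Algebra F ℂ] {N : ℕ} (FF : Set (MvPolynomial (Fin (N + 1)) F)) :
    Ideal (MvPolynomial (Fin (N + 1)) ℂ) :=
  (Ideal.span FF).map (MvPolynomial.map (algebraMap F ℂ))

/-- The form `Q` with complex coefficients. -/
noncomputable def formC {F : Type} [Field F] [Algebra F ℂ] {N : ℕ}
    (Q : MvPolynomial (Fin (N + 1)) F) : MvPolynomial (Fin (N + 1)) ℂ :=
  MvPolynomial.map (algebraMap F ℂ) Q

/-- `U` is a variety of dimension `w` and of log Kodaira dimension at least `κ`: here `K` is the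
function field and `y` the generic point of `U`, and `Bd` consists of the places without centre
on `U`. -/
def LogKodairaGe {N : ℕ} (p : Ideal (MvPolynomial (Fin (N + 1)) ℂ))
    (Q : MvPolynomial (Fin (N + 1)) ℂ) (q κ : ℕ) : Prop :=
  ∃ (K : Type) (_ : Field K) (_ : Algebra ℂ K) (w : ℕ) (y : Fin (N + 1) → K),
    FunField p Q K w y ∧ KodGe ℂ K w (OffQ Q q y) κ

/-- All subvarieties of dimension greater than `d` are of log general type. Here the subvarieties
are given by their function fields `K` and generic points `y`. -/
def SubvarietiesLogGeneral {N : ℕ} (p : Ideal (MvPolynomial (Fin (N + 1)) ℂ))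
    (Q : MvPolynomial (Fin (N + 1)) ℂ) (q d : ℕ) : Prop :=
  ∀ (K : Type) [Field K] [Algebra ℂ K] (v : ℕ) (y : Fin (N + 1) → K), SubVarP p Q K v y →
    d < v → LogGeneralType ℂ K v (OffQ Q q y)

theorem result (F : Type) [Field F] [Algebra F ℂ] (N : ℕ)
    (FF : Set (MvPolynomial (Fin (N + 1)) F)) (hFF : ∀ G ∈ FF, IsForm G)
    (Q : MvPolynomial (Fin (N + 1)) F) (q : ℕ) (hQ : Q.IsHomogeneous q)
    (B : Subalgebra ℂ (ℕ → ℂ)) (hB : CoefField B) (d : ℕ) (hd : TrLe B d)
    (x : ℕ → Fin (N + 1) → F) (hX : ∀ m, ∀ G ∈ FF, eval (x m) G = 0)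
    (hrec : ∀ j, LinRec B (fun m => algebraMap F ℂ (x m j)))
    (hint : Hyper B (formC Q) (fun m j => algebraMap F ℂ (x m j))) :
    ((∃ κ, d < κ ∧ LogKodairaGe (idealC FF) (formC Q) q κ) →
      ∃ G : MvPolynomial (Fin (N + 1)) F, IsForm G ∧ G ∉ Ideal.span FF ∧
        ∀ m, eval (x m) G = 0) ∧
    (SubvarietiesLogGeneral (idealC FF) (formC Q) q d →
      ∀ J : Fin (d + 2) → Fin (N + 1), ∃ H : MvPolynomial (Fin (d + 2)) F, IsForm H ∧ H ≠ 0 ∧
        ∀ m, eval (fun i => x m (J i)) H = 0) := by
  have hQc : (formC Q).IsHomogeneous q := hQ.map _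
  have hXc : ∀ m, ∀ G ∈ idealC FF, eval (cpt x m) G = 0 := by
    intro m
    change idealC FF ≤ RingHom.ker (eval (cpt x m))
    unfold idealC
    rw [Ideal.map_span, Ideal.span_le]
    rintro _ ⟨G, hG, rfl⟩
    change eval (cpt x m) (MvPolynomial.map (algebraMap F ℂ) G) = 0
    rw [eval_cpt, hX m G hG, map_zero]
  refine ⟨?_, fun hsub J => ?_⟩
  · rintro ⟨κ, hκ, K, _, _, w, y, hy, hkod⟩
    by_contra hcon
    push Not at hcon
    have h1 : SeqDense (idealC FF) (cpt x) := by
      refine seqDense_of fun G hG h0 => ?_
      by_contra hG0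
      obtain ⟨m, hm⟩ := hcon G hG hG0
      exact hm (h0 m)
    have hw : 1 ≤ w := by
      obtain ⟨e, he, ω, hω, D, hD, hind⟩ := hkod
      have h2 := hind.lift_cardinalMk_le_trdeg
      rw [hy.sub.dim] at h2
      have h3 : κ ≤ w := by simpa using h2
      omega
    exact not_tailDense hB hd hQc hy hrec (Eventually.of_forall hXc) hint hκ hkod (h1.tail hy hw)
  · by_contra hcon
    push Not at hcon
    have hJ : ∀ H : MvPolynomial (Fin (d + 1 + 1)) ℂ, IsForm H → H ≠ 0 →
        ¬ ∀ᶠ m in atTop, eval (fun i => cpt x m (J i)) H = 0 := by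
      intro H hH h0 hz
      obtain ⟨H', h1, h2, h3⟩ := tail_form (fun m i => cpt x m (J i)) hH h0 hz
      obtain ⟨H'', h4, h5, h6⟩ := form_descend (u := fun m i => x m (J i)) h1 h2 h3
      obtain ⟨m, hm⟩ := hcon H'' h4 h5
      exact hm (h6 m)
    obtain ⟨K, _, _, v, y, hy0, hgen, hdim, hdv, hoff, hforms, r, hr⟩ :=
      closure_dir hB hd hQc hrec hint J hJ
    have hsv : SubVarP (idealC FF) (formC Q) K v y := by
      refine ⟨hy0, fun G hG => ?_, hoff, hgen, hdim⟩
      have h1 : idealC FF ≤ RingHom.ker (aeval y : MvPolynomial (Fin (N + 1)) ℂ →ₐ[ℂ] K) := by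
        unfold idealC
        rw [Ideal.map_span, Ideal.span_le]
        rintro _ ⟨G, hG, rfl⟩
        obtain ⟨e, he⟩ := hFF G hG
        exact hforms _ ⟨e, he.map _⟩ (Eventually.of_forall fun m =>
          hXc m _ (Ideal.mem_map_of_mem _ (Ideal.subset_span hG)))
      exact h1 hG
    have hgt := hsub K v y hsv hdv
    apply hr
    intro M _ _ m W l hm hF
    exact (hF.main hdim hm hy0 hgen hQc).2.2.1 hgt r

end Pool.Agent.Results.MP_26d9ad_nt.RecurrenceSections
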