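import Pool.Agent.W180.TP.Nor
import Pool.Agent.Q13.RM.Main

set_option autoImplicit false

/-!
# Runge's method for divisors whose components meet in linear subspaces, and many places

`X = {G = 0}` is a projective scheme in `ℙ^(n-1)` over a number field `K`, of any dimension and with
arbitrary singularities, and `D = ∑ D_i`, `D_i = X ∩ {F i = 0}`, has `q` components, any `N` of
which meet only in disjoint parts of finitely many linear subspaces, for instance in finitely many
closed points of bounded degree.
-/

namespace Pool.Agent.Results.MP_26d9ad_nt.RungeManyPlaces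

open NumberField IsDedekindDomain
open scoped LinearAlgebra.Projectivization

/-- The point with homogeneous coordinates `x` lies on the projective scheme `X = {G = 0}`. -/
def On {K L : Type} [Field K] [Field L] [Algebra K L] {m n : ℕ}
    (G : Fin m → MvPolynomial (Fin n) K) (x : Fin n → L) : Prop :=
  ∀ k, MvPolynomial.aeval x (G k) = 0

/-- The point with homogeneous coordinates `x` in an extension `L` of `K` lies on the linear
subspace of projective space given by the subspace `W` of `K ^ n`, that is, it satisfies all the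
linear equations of `W`. -/
def OnSub {K L : Type} [Field K] [Field L] [Algebra K L] {n : ℕ} (W : Submodule K (Fin n → K))
    (x : Fin n → L) : Prop :=
  ∀ l : Fin n → K, (∀ w ∈ W, ∑ b, l b * w b = 0) → ∑ b, algebraMap K L (l b) * x b = 0

/-- Every common point (over any extension of `K`) of the hypersurfaces `F j = 0`, `j ∈ J`, on
`X = {G = 0}` lies on exactly one of the linear subspaces in `T`, and the `μ`-th power of the ideal
of these common points is contained, locally, in the ideal of the scheme `X ∩ {F j = 0, j ∈ J}`.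
For `μ = 1` the second condition says that this scheme is reduced. If there are finitely many common
points, which form closed points of degree at most `e` over `K`, none of which lies in the linear
span of another one, then one can take for `T` the spans of the closed points, of dimension at most
`e`; if the common points are `K`-rational this is always possible, with `e = 1`. -/
def MeetIn {K : Type} [Field K] {m n q : ℕ} (μ : ℕ) (G : Fin m → MvPolynomial (Fin n) K)
    (F : Fin q → MvPolynomial (Fin n) K) (J : Finset (Fin q))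
    (T : Finset (Submodule K (Fin n → K))) : Prop :=
  (∀ (L : Type) [Field L] [Algebra K L] (x : Fin n → L), x ≠ 0 → On G x →
    (∀ j ∈ J, MvPolynomial.aeval x (F j) = 0) → ∃! W, W ∈ T ∧ OnSub W x) ∧
  ∀ Q ∈ (Ideal.span (F '' (J : Set (Fin q)) ∪ Set.range G)).radical ^ μ, ∀ a : Fin n, ∃ M : ℕ,
    MvPolynomial.X a ^ M * Q ∈ Ideal.span (F '' (J : Set (Fin q)) ∪ Set.range G)

/-- The local height of the hypersurface `F = 0` of degree `d` at the point with homogeneous
coordinates `x`, for the absolute value `a` of `L`. -/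
noncomputable def weil {K L : Type} [Field K] [Field L] [Algebra K L] {n : ℕ} (a : L → ℝ) (d : ℕ)
    (F : MvPolynomial (Fin n) K) (x : Fin n → L) : ℝ :=
  Real.log ((⨆ j, a (x j)) ^ d / a (MvPolynomial.aeval x F))

/-- The absolute logarithmic height. -/
noncomputable def height {L : Type} [Field L] [NumberField L] {n : ℕ} (x : Fin n → L) : ℝ :=
  Height.logHeight x / Module.finrank ℚ L

/-- The counting function `N_S(x)`, with absolute normalisation, of the hypersurface `F = 0` of
degree `d`, where `S` consists of the archimedean places and the primes in `S₂`. -/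
noncomputable def counting {K L : Type} [Field K] [Field L] [NumberField L] [Algebra K L] {n : ℕ}
    (S₂ : Finset (HeightOneSpectrum (𝓞 L))) (d : ℕ) (F : MvPolynomial (Fin n) K)
    (x : Fin n → L) : ℝ :=
  (∑ᶠ (v : HeightOneSpectrum (𝓞 L)) (_ : v ∉ S₂), weil (FinitePlace.mk v) d F x) /
    Module.finrank ℚ L

/-- Let `X = {G = 0}` be a projective scheme over a number field `K`, let `F 0, …, F (q-1)` be forms
of degrees `d i`, suppose any `N` of the `D_i = X ∩ {F i = 0}` meet, with contact at most `μ`, in
disjoint parts of finitely many linear subspaces of dimension at most `e` of `K ^ n`, and let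
`(N - 1) s < q`. For every `k ≥ 1`, with `c = μ max(1, s/k)` and with the set `Z` of the linear
subspaces (of dimension at most `k e`) spanned by at most `k` of the given ones:

* there is a constant `C` such that for all number fields `L ⊇ K`, all sets `S` of at most `s`
  places of `L` (with the archimedean ones) and all points `x` of `X(L)` off `D` and `Z`,
  `N_S(D_i, x) ≥ (d i - c) h(x) - C` for some `i`;
* if `θ < d i - c` for all `i`, there are only finitely many algebraic points `P` of `X` off `D` and
  `Z` which are defined over some number field `L ⊇ K` and satisfy `N_S(D_i, P) ≤ θ h(P) + κ` for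
  all `i`, for some set `S` of at most `s` places of `L` (with the archimedean ones); neither `L`
  nor `S` is fixed. If `c < d i` for all `i`, this holds for the integral points (`θ = 0`). -/
theorem result (K : Type) [Field K] [NumberField K] (m n q N s k e μ : ℕ) (hN : 1 ≤ N)
    (hs : (N - 1) * s < q) (hk : 1 ≤ k)
    (G : Fin m → MvPolynomial (Fin n) K) (g : Fin m → ℕ) (hG : ∀ k, (G k).IsHomogeneous (g k))
    (F : Fin q → MvPolynomial (Fin n) K) (d : Fin q → ℕ) (hF : ∀ i, (F i).IsHomogeneous (d i))
    (T : Finset (Fin q) → Finset (Submodule K (Fin n → K)))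
    (hT : ∀ J : Finset (Fin q), J.card = N → MeetIn μ G F J (T J))
    (he : ∀ J : Finset (Fin q), J.card = N → ∀ W ∈ T J, Module.finrank K W ≤ e) :
    ∃ Z : Finset (Submodule K (Fin n → K)),
      (∀ V ∈ Z, Module.finrank K V ≤ k * e ∧ ∃ A : Finset (Submodule K (Fin n → K)),
        A.card ≤ k ∧ (∀ W ∈ A, ∃ J, J.card = N ∧ W ∈ T J) ∧ V = A.sup id) ∧
      (∃ C : ℝ, ∀ (L : Type) [Field L] [NumberField L] [Algebra K L]
        (S₂ : Finset (HeightOneSpectrum (𝓞 L))) (x : Fin n → L),
        Fintype.card (InfinitePlace L) + S₂.card ≤ s → x ≠ 0 → On G x →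
        (∀ i, MvPolynomial.aeval x (F i) ≠ 0) → (∀ V ∈ Z, ¬ OnSub V x) →
        ∃ i, (d i - μ * max 1 ((s : ℝ) / k)) * height x - C ≤ counting S₂ (d i) (F i) x) ∧
      ∀ θ κ : ℝ, (∀ i, θ < d i - μ * max 1 ((s : ℝ) / k)) →
        {P : ℙ (AlgebraicClosure K) (Fin n → AlgebraicClosure K) |
          On G P.rep ∧ (∀ i, MvPolynomial.aeval P.rep (F i) ≠ 0) ∧
          (∀ V ∈ Z, ¬ OnSub V P.rep) ∧
          ∃ (L : Type) (_ : Field L) (_ : NumberField L) (_ : Algebra K L)
            (σ : L →ₐ[K] AlgebraicClosure K) (x : Fin n → L) (c : AlgebraicClosure K)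
            (S₂ : Finset (HeightOneSpectrum (𝓞 L))),
            P.rep = c • (fun b => σ (x b)) ∧
            Fintype.card (InfinitePlace L) + S₂.card ≤ s ∧
            ∀ i, counting S₂ (d i) (F i) x ≤ θ * height x + κ}.Finite := by
  classical
  have hweil : ∀ (L : Type) [Field L] [Algebra K L] (f : AbsoluteValue L ℝ) (e : ℕ)
      (H : MvPolynomial (Fin n) K) (x : Fin n → L), weil f e H x =
      Pool.Agent.W180.OP.lam f e (Pool.Agent.W180.OP.bc L H) x := by
    intro L _ _ f e H x
    unfold weil Pool.Agent.W180.OP.lam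
    rw [Pool.Agent.W180.OP.eval_bc]
    rfl
  have hrange : ∀ J : Finset (Fin q), Set.range (Sum.elim (fun j : J => F j.1) G) =
      F '' (J : Set (Fin q)) ∪ Set.range G := by
    intro J
    rw [Set.Sum.elim_range]
    congr 1
    ext P
    constructor
    · rintro ⟨j, rfl⟩
      exact ⟨j.1, j.2, rfl⟩
    · rintro ⟨j, hj, rfl⟩
      exact ⟨⟨j, hj⟩, rfl⟩
  obtain ⟨C, hC0, hC⟩ := Pool.Agent.Q13.RM.main (μ := μ) hN hk G g hG F d hF T
    (fun J hJ L _ _ x hx h1 h2 => by
      obtain ⟨W, hW, -⟩ := (hT J hJ).1 L x hx h2 h1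
      exact ⟨W, hW⟩)
    (fun J hJ L _ _ x hx h1 h2 W hW W' hW' h3 h4 => by
      obtain ⟨W0, -, hu⟩ := (hT J hJ).1 L x hx h2 h1
      rw [hu W ⟨hW, h3⟩, hu W' ⟨hW', h4⟩])
    (fun J hJ a Q hQ => by
      rw [hrange] at hQ ⊢
      exact (hT J hJ).2 Q hQ a)
  -- the exceptional subspaces
  set TT : Finset (Submodule K (Fin n → K)) :=
    (Finset.univ.filter fun J : Finset (Fin q) => J.card = N).biUnion T with hTT
  set Z : Finset (Submodule K (Fin n → K)) :=
    (TT.powerset.filter fun A => A.card ≤ k).image fun A => A.sup id with hZ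
  have hTT' : ∀ W, W ∈ TT ↔ ∃ J, J.card = N ∧ W ∈ T J := by
    intro W
    rw [hTT, Finset.mem_biUnion]
    simp only [Finset.mem_filter, Finset.mem_univ, true_and]
  have hdim : ∀ A : Finset (Submodule K (Fin n → K)), (∀ W ∈ A, Module.finrank K W ≤ e) →
      Module.finrank K ((A.sup id : Submodule K (Fin n → K))) ≤ A.card * e := by
    intro A
    induction A using Finset.induction_on with
    | empty => intro _; simp
    | insert a A ha ih =>
      intro h
      rw [Finset.sup_insert, Finset.card_insert_of_notMem ha]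
      have h1 := Submodule.finrank_add_le_finrank_add_finrank (id a) (A.sup id)
      have h2 := ih fun W hW => h W (Finset.mem_insert_of_mem hW)
      have h3 := h a (Finset.mem_insert_self _ _)
      calc _ ≤ _ := h1
        _ ≤ e + A.card * e := add_le_add h3 h2
        _ = _ := by ring
  -- the inequality
  have hineq : ∀ (L : Type) [Field L] [NumberField L] [Algebra K L]
        (S₂ : Finset (HeightOneSpectrum (𝓞 L))) (x : Fin n → L),
        Fintype.card (InfinitePlace L) + S₂.card ≤ s → x ≠ 0 → On G x →
        (∀ i, MvPolynomial.aeval x (F i) ≠ 0) → (∀ V ∈ Z, ¬ OnSub V x) →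
        ∃ i, (d i - μ * max 1 ((s : ℝ) / k)) * height x - C * (s + 1) ≤
          counting S₂ (d i) (F i) x := by
    intro L _ _ _ S₂ x hcard hx hGx hFx hZx
    have hNL : (0 : ℝ) < Module.finrank ℚ L := by exact_mod_cast Module.finrank_pos
    set S : Finset (Pool.Agent.W180.OP.Pl L) := (Finset.univ : Finset (InfinitePlace L)).disjSum S₂
      with hSdef
    have hSc : S.card ≤ s := by
      rw [hSdef, Finset.card_disjSum, Finset.card_univ]
      exact hcard
    obtain ⟨i, hi⟩ := hC L S (lt_of_le_of_lt (Nat.mul_le_mul_left _ hSc) hs) x hx hGx hFx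
      (by
        intro A hA hAk hon
        refine hZx (A.sup id) ?_ hon
        rw [hZ, Finset.mem_image]
        refine ⟨A, Finset.mem_filter.2 ⟨Finset.mem_powerset.2 fun W hW => ?_, hAk⟩, rfl⟩
        exact (hTT' W).2 (hA W hW))
    refine ⟨i, ?_⟩
    obtain ⟨-, h1⟩ := Pool.Agent.W180.TP.fmt (d := d i) (F i) hx (hFx i) S₂
    have h2 : ∑ p ∈ S, Pool.Agent.W180.OP.wt p * Pool.Agent.W180.OP.lam
        (Pool.Agent.W180.OP.av p) (d i) (Pool.Agent.W180.OP.bc L (F i)) x =
        ∑ w : InfinitePlace L, (w.mult : ℝ) * Pool.Agent.W180.OP.lam w.1 (d i)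
          (Pool.Agent.W180.OP.bc L (F i)) x +
        ∑ v ∈ S₂, Pool.Agent.W180.OP.lam (Pool.Agent.W180.OP.fv v) (d i)
          (Pool.Agent.W180.OP.bc L (F i)) x := by
      rw [hSdef, Finset.sum_disjSum]
      congr 1
      exact Finset.sum_congr rfl fun v _ => one_mul _
    have h3 : counting S₂ (d i) (F i) x = (∑ᶠ (v : HeightOneSpectrum (𝓞 L)) (_ : v ∉ S₂),
        Pool.Agent.W180.OP.lam (Pool.Agent.W180.OP.fv v) (d i)
          (Pool.Agent.W180.OP.bc L (F i)) x) / Module.finrank ℚ L := by
      unfold counting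
      congr 1
      refine finsum_congr fun v => finsum_congr fun _ => ?_
      exact hweil L (Pool.Agent.W180.OP.fv v) (d i) (F i) x
    rw [h3, le_div_iff₀ hNL, height]
    have hk0 : (0 : ℝ) < k := by exact_mod_cast hk
    have hScr : (S.card : ℝ) ≤ s := by exact_mod_cast hSc
    have h4 : max 1 ((S.card : ℝ) / k) ≤ max 1 ((s : ℝ) / k) :=
      max_le_max le_rfl (div_le_div_of_nonneg_right hScr hk0.le)
    have hh := Height.logHeight_nonneg x
    have h5 : (μ : ℝ) * (max 1 ((S.card : ℝ) / k) * Height.logHeight x) ≤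
        μ * (max 1 ((s : ℝ) / k) * Height.logHeight x) :=
      mul_le_mul_of_nonneg_left (mul_le_mul_of_nonneg_right h4 hh) (Nat.cast_nonneg _)
    have h6 : C * ((S.card : ℝ) + 1) * Module.finrank ℚ L ≤
        C * (s + 1) * Module.finrank ℚ L :=
      mul_le_mul_of_nonneg_right (mul_le_mul_of_nonneg_left (by linarith) hC0) hNL.le
    have e1 : ((d i - μ * max 1 ((s : ℝ) / k)) * (Height.logHeight x / Module.finrank ℚ L) -
        C * (s + 1)) * Module.finrank ℚ L =
        d i * Height.logHeight x - μ * (max 1 ((s : ℝ) / k) * Height.logHeight x) -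
          C * (s + 1) * Module.finrank ℚ L := by
      field_simp
    rw [e1]
    linarith
  refine ⟨Z, fun V hV => ?_, ⟨C * (s + 1), fun L _ _ _ => hineq L⟩, ?_⟩
  · rw [hZ, Finset.mem_image] at hV
    obtain ⟨A, hA, rfl⟩ := hV
    rw [Finset.mem_filter, Finset.mem_powerset] at hA
    refine ⟨?_, A, hA.2, fun W hW => (hTT' W).1 (hA.1 hW), rfl⟩
    refine (hdim A fun W hW => ?_).trans (Nat.mul_le_mul_right _ hA.2)
    obtain ⟨J, hJ, hWJ⟩ := (hTT' W).1 (hA.1 hW)
    exact he J hJ W hWJ
  -- finiteness
  intro θ κ hθ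
  have hq0 : 0 < q := lt_of_le_of_lt (Nat.zero_le _) hs
  have : Nonempty (Fin q) := ⟨⟨0, hq0⟩⟩
  set cc : ℝ := μ * max 1 ((s : ℝ) / k) with hcc
  obtain ⟨i0, -, hi0⟩ := Finset.exists_min_image (Finset.univ : Finset (Fin q))
    (fun i => (d i : ℝ)) Finset.univ_nonempty
  set δ : ℝ := d i0 - cc - θ with hδ
  have hδ0 : 0 < δ := by
    have := hθ i0
    linarith
  set B : ℝ := (2 * s : ℕ) * max 0 ((κ + C * (s + 1)) / δ) with hB
  refine (Pool.Agent.W180.TP.northcott_pts (AlgebraicClosure K) n (2 * s) B).subset ?_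
  rintro P ⟨hGP, hFP, hzP, L, _, _, _, σ, x, c, S₂, hP, hS, hint⟩
  have hev : ∀ (H : MvPolynomial (Fin n) K), MvPolynomial.aeval (fun b => σ (x b)) H =
      σ (MvPolynomial.aeval x H) := by
    intro H
    have h : (MvPolynomial.aeval (fun b => σ (x b)) :
        MvPolynomial (Fin n) K →ₐ[K] AlgebraicClosure K) = σ.comp (MvPolynomial.aeval x) := by
      apply MvPolynomial.algHom_ext
      intro b
      simp
    exact DFunLike.congr_fun h H
  have hc0 : c ≠ 0 := by
    rintro rfl
    exact P.rep_nonzero (by rw [hP, zero_smul])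
  have hx : x ≠ 0 := by
    rintro rfl
    apply P.rep_nonzero
    rw [hP]
    funext b
    simp
  have hGx : ∀ k, MvPolynomial.aeval x (G k) = 0 := by
    intro k
    have h1 := hGP k
    rw [hP, Pool.Agent.W180.TP.aeval_smul_hom' _ (hG k), hev] at h1
    exact (map_eq_zero σ).1 ((mul_eq_zero.1 h1).resolve_left (pow_ne_zero _ hc0))
  have hFx : ∀ i, MvPolynomial.aeval x (F i) ≠ 0 := by
    intro i h
    apply hFP i
    rw [hP, Pool.Agent.W180.TP.aeval_smul_hom' _ (hF i), hev, h, map_zero, mul_zero]
  have hZx : ∀ V ∈ Z, ¬ OnSub V x := by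
    intro V hV hon
    apply hzP V hV
    intro l hl
    have h1 := hon l hl
    have h2 : ∑ b, algebraMap K (AlgebraicClosure K) (l b) * P.rep b =
        c * σ (∑ b, algebraMap K L (l b) * x b) := by
      rw [hP, map_sum, Finset.mul_sum]
      refine Finset.sum_congr rfl fun b _ => ?_
      simp only [Pi.smul_apply, smul_eq_mul, map_mul, AlgHom.commutes]
      ring
    rw [h2, h1, map_zero, mul_zero]
  have hNL : (0 : ℝ) < Module.finrank ℚ L := by exact_mod_cast Module.finrank_pos
  have hN4 : Module.finrank ℚ L ≤ 2 * s := by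
    rw [← InfinitePlace.sum_mult_eq]
    have h1 : ∑ w : InfinitePlace L, w.mult ≤ ∑ _w : InfinitePlace L, 2 :=
      Finset.sum_le_sum fun w _ => by
        rw [InfinitePlace.mult]
        split_ifs <;> norm_num
    rw [Finset.sum_const, Finset.card_univ, smul_eq_mul] at h1
    omega
  refine ⟨L, inferInstance, inferInstance, σ.toRingHom, x, c, hP, hN4, ?_⟩
  obtain ⟨i, hi⟩ := hineq L S₂ x hS hx hGx hFx hZx
  have h4 := hint i
  have hh : 0 ≤ height x := div_nonneg (Height.logHeight_nonneg x) hNL.le
  have h5 : δ * height x ≤ κ + C * (s + 1) := by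
    have e1 : δ ≤ d i - cc - θ := by
      have := hi0 i (Finset.mem_univ _)
      linarith
    have e2 := mul_le_mul_of_nonneg_right e1 hh
    have e3 : (d i - cc - θ) * height x = (d i - cc) * height x - θ * height x := by ring
    linarith
  have h6 : height x ≤ max 0 ((κ + C * (s + 1)) / δ) := by
    refine le_trans ?_ (le_max_right _ _)
    rw [le_div_iff₀ hδ0]
    linarith
  have h7 : Height.logHeight x = height x * Module.finrank ℚ L := by
    unfold height
    rw [div_mul_cancel₀ _ hNL.ne']
  rw [h7, hB]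
  have h8 : (Module.finrank ℚ L : ℝ) ≤ (2 * s : ℕ) := by exact_mod_cast hN4
  have h9 : 0 ≤ max 0 ((κ + C * (s + 1)) / δ) := le_max_left _ _
  calc height x * Module.finrank ℚ L ≤ max 0 ((κ + C * (s + 1)) / δ) * Module.finrank ℚ L :=
        mul_le_mul_of_nonneg_right h6 hNL.le
    _ ≤ max 0 ((κ + C * (s + 1)) / δ) * (2 * s : ℕ) := mul_le_mul_of_nonneg_left h8 h9
    _ = _ := by ring

end Pool.Agent.Results.MP_26d9ad_nt.RungeManyPlaces
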