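import Pool.Agent.Q1.SL.UnifRA

set_option autoImplicit false

/-!
# Families of points of affine varieties given by iterated recurrences: uniform bounds

We consider families of points `x(h)`, `h ∈ H`, of closed subsets `V` of affine `n`-space over `ℂ`
(for instance integral points, with coordinates in any finitely generated domain of characteristic
zero), where `H` is a group and the coordinates are given by `s` iterated recurrences with matrices
of size `r` and polynomials of degree at most `e` (`IterVec s r e x`): there are functions
`X_1, ..., X_s` on `H` with values in the invertible matrices of size `r` such that for every `g` the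
entries of `X_l(g h) X_l(h)⁻¹` are values of polynomials of degree at most `e` in each variable, with
coefficients which depend only on `g`, at the entries of `X_i(h)`, `X_i(h)⁻¹`, `i < l`, and the
coordinates of `x(h)` are values of such polynomials at the entries of all these matrices (for
`s = 1`: sums of products of matrices, linear recurrence sequences, sums of `S`-units).

(1) For all `n`, `D`, `s`, `r`, `e` there are numbers `d` and `B` such that for ALL closed subsets `V`
of affine `n`-space defined by polynomials of degree at most `D` and all polynomials `G` of degree at
most `D`: if all nonconstant curves `p(t) / t ^ m`, `t ≠ 0`, on `V` with `m` and the degrees of the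
`p_j` at most `d` lie in `G = 0`, then every family of points of `V` given by iterated recurrences of
complexity `(s, r, e)` contains at most `B` different points outside of `G = 0`.

(2) Conversely, if `V` contains such a curve of degree at most `d` which is not contained in `G = 0`,
then there is a family over the group `ℤ`, of complexity `(1, 1, d)`, with infinitely many points
outside of `G = 0`.

For `G = 1`: if all closed subvarieties of `V` are of log general type, then `V` contains no image of
the punctured line, so the number of the points of a family of complexity `(s, r, e)` on `V` is at
most `B(n, D, s, r, e)`; the bound does not depend on `V`, the group or the ring of the coordinates.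
-/

namespace Pool.Agent.Results.MP_26d9ad_nt.UniformInAffineVariety

open MvPolynomial Pool.Agent.Q1.SL Pool.Agent.Y377.ST

theorem result (n : ℕ) :
    (∀ D s r e : ℕ, ∃ d B : ℕ, ∀ (S : Set (MvPolynomial (Fin n) ℂ)) (G : MvPolynomial (Fin n) ℂ),
      (∀ F ∈ S, F.totalDegree ≤ D) → G.totalDegree ≤ D → LauIn S G d →
      ∀ (H : Type) [Group H] (x : H → Fin n → ℂ), IterVec s r e x →
        (∀ h, ∀ F ∈ S, eval (x h) F = 0) → (offA G x).encard ≤ (B : ℕ∞)) ∧
    ∀ (d : ℕ) (S : Set (MvPolynomial (Fin n) ℂ)) (G : MvPolynomial (Fin n) ℂ),
      (∀ x : Multiplicative ℤ → Fin n → ℂ, IterVec 1 1 d x →
        (∀ h, ∀ F ∈ S, eval (x h) F = 0) → (offA G x).Finite) → LauIn S G d :=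
  ⟨rec_uniformA n, fun _ _ _ => lauIn_of_rec⟩

end Pool.Agent.Results.MP_26d9ad_nt.UniformInAffineVariety
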